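import Mathlib
import Pool.Agent.H83.Tcc7

/-!
No infinite computable Polish space is topologically computably categorical.
-/

set_option autoImplicit false

namespace Pool.Agent.Results.MP_fa5791_lc.NoCat

open Pool.Agent.H83.Tcc

theorem result (X : Type) [TopologicalSpace X] [Infinite X] (hX : IsCompPolish X) :
    ¬ TopCompCat X ∧
    ∃ M N : Pres, Function.Injective M.c ∧ Function.Injective N.c ∧
      Nonempty (M.Y ≃ₜ X) ∧ Nonempty (N.Y ≃ₜ X) ∧
      ∀ f : M.Y → N.Y, Function.Bijective f → ¬ CompMap M N f := by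
  obtain ⟨P, ⟨e⟩⟩ := hX
  haveI : Infinite P.Y := e.toEquiv.infinite_iff.2 ‹_›
  obtain ⟨M, N, h1, h2, ⟨h3⟩, ⟨h4⟩, h5⟩ := main P
  refine ⟨fun h => ?_, M, N, h1, h2, ⟨h3.trans e⟩, ⟨h4.trans e⟩, h5⟩
  obtain ⟨f, hf, -⟩ := h M N ⟨h3.trans e⟩ ⟨h4.trans e⟩
  exact h5 f f.bijective hf

end Pool.Agent.Results.MP_fa5791_lc.NoCat
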